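import Mathlib

namespace Pool.Agent.Results.MP_eec16c_co.Log
open Finset

/-- No `x, y, z ∈ S` (not necessarily distinct) with `x + y = z`. -/
def SumFree {p : ℕ} (S : Finset (ZMod p)) : Prop := ∀ x ∈ S, ∀ y ∈ S, x + y ∉ S

/-- `T(ℤ_p, {2,1})`: the least `m` (with `1 ≤ m ≤ p`) such that every `m`-subset of `ℤ_p`
contains a sum-free set of size `(p+1)/3`. -/
noncomputable def T (p : ℕ) : ℕ :=
  sInf {m | 1 ≤ m ∧ m ≤ p ∧ ∀ A : Finset (ZMod p), A.card = m →
    ∃ S ⊆ A, SumFree S ∧ S.card = (p + 1) / 3}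

/-- The dilate by `d` of the middle interval `{(p+1)/3, …, (2p-1)/3}`. -/
def Mid (p : ℕ) (d : ZMod p) : Finset (ZMod p) :=
  (Icc ((p + 1) / 3) ((2 * p - 1) / 3)).image fun n : ℕ => d * (n : ZMod p)

lemma mem_mid {p k : ℕ} [Fact p.Prime] (hk : p = 3 * k + 2) {d : ZMod p} (hd : d ≠ 0)
    (w : ZMod p) : w ∈ Mid p d ↔ k + 1 ≤ (d⁻¹ * w).val ∧ (d⁻¹ * w).val ≤ 2 * k + 1 := by
  have e1 : (p + 1) / 3 = k + 1 := by omega
  have e2 : (2 * p - 1) / 3 = 2 * k + 1 := by omega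
  simp only [Mid, e1, e2, mem_image, mem_Icc]
  constructor
  · rintro ⟨n, hn, rfl⟩
    rw [← mul_assoc, inv_mul_cancel₀ hd, one_mul, ZMod.val_natCast, Nat.mod_eq_of_lt (by omega)]
    exact hn
  · intro h
    refine ⟨_, h, ?_⟩
    rw [ZMod.natCast_zmod_val, ← mul_assoc, mul_inv_cancel₀ hd, one_mul]

lemma val_add' {p : ℕ} [Fact p.Prime] (u v : ZMod p) :
    (u + v).val = u.val + v.val ∨ (u + v).val + p = u.val + v.val := by
  have h1 := ZMod.val_lt u
  have h2 := ZMod.val_lt v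
  rw [ZMod.val_add]
  by_cases h : u.val + v.val < p
  · left; exact Nat.mod_eq_of_lt h
  · right
    rw [Nat.mod_eq_sub_mod (by omega), Nat.mod_eq_of_lt (by omega)]; omega

lemma card_mid {p k : ℕ} [Fact p.Prime] (hk : p = 3 * k + 2) {d : ZMod p} (hd : d ≠ 0) :
    (Mid p d).card = (p + 1) / 3 := by
  unfold Mid
  rw [card_image_of_injOn, Nat.card_Icc]
  · omega
  · intro a ha b hb h
    simp only [coe_Icc, Set.mem_Icc] at ha hb
    have h' : (a : ZMod p) = b := mul_left_cancel₀ hd h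
    have := congrArg ZMod.val h'
    rwa [ZMod.val_natCast, ZMod.val_natCast, Nat.mod_eq_of_lt (by omega),
      Nat.mod_eq_of_lt (by omega)] at this

lemma sf_mid {p k : ℕ} [Fact p.Prime] (hk : p = 3 * k + 2) {d : ZMod p} (hd : d ≠ 0) :
    SumFree (Mid p d) := by
  intro x hx y hy hxy
  rw [mem_mid hk hd] at hx hy hxy
  rw [mul_add] at hxy
  have := val_add' (d⁻¹ * x) (d⁻¹ * y)
  omega

lemma upper {p k : ℕ} [hp : Fact p.Prime] (hk : p = 3 * k + 2) (A : Finset (ZMod p))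
    (hA : A.card = p - Nat.log 3 p) : ∃ S ⊆ A, SumFree S ∧ S.card = (p + 1) / 3 := by
  classical
  have hlt : Nat.log 3 p < p := Nat.log_lt_self _ (by omega)
  have hB : (Aᶜ).card = Nat.log 3 p := by
    rw [card_compl, ZMod.card, hA]; omega
  have h3 : 3 ^ Nat.log 3 p < p := by
    have h := Nat.pow_log_le_self 3 (x := p) (by omega)
    rcases h.lt_or_eq with h | h
    · exact h
    · exfalso
      rcases Nat.eq_zero_or_pos (Nat.log 3 p) with h0 | h0
      · rw [h0] at h; omega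
      · have : 3 ∣ p := h ▸ dvd_pow_self 3 h0.ne'
        omega
  let f : ZMod p → (↥(Aᶜ) → Fin 3) := fun x b =>
    ⟨((b : ZMod p) * x).val / (k + 1), by
      have := ZMod.val_lt ((b : ZMod p) * x)
      rw [Nat.div_lt_iff_lt_mul (by omega)]; omega⟩
  obtain ⟨x, y, hxy, hf⟩ := Fintype.exists_ne_map_eq_of_card_lt f (by
    rw [Fintype.card_fun, Fintype.card_fin, Fintype.card_coe, hB, ZMod.card]; exact h3)
  have hz : (x - y)⁻¹ ≠ 0 := inv_ne_zero (sub_ne_zero.2 hxy)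
  refine ⟨Mid p (x - y)⁻¹, ?_, sf_mid hk hz, card_mid hk hz⟩
  intro w hw
  by_contra hwA
  rw [mem_mid hk hz, inv_inv] at hw
  have h1 : (w * x).val / (k + 1) = (w * y).val / (k + 1) :=
    congrArg Fin.val (congrFun hf ⟨w, mem_compl.2 hwA⟩)
  have h2 := val_add' (w * y) ((x - y) * w)
  rw [show w * y + (x - y) * w = w * x by ring] at h2
  have a1 := Nat.div_add_mod (w * x).val (k + 1)
  have a2 := Nat.div_add_mod (w * y).val (k + 1)
  have a3 := Nat.mod_lt (w * x).val (show 0 < k + 1 by omega)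
  have a4 := Nat.mod_lt (w * y).val (show 0 < k + 1 by omega)
  rw [h1] at a1
  generalize (k + 1) * ((w * y).val / (k + 1)) = Q at a1 a2
  omega

lemma dbl (k : ℕ) : ∀ j a : ℕ, 1 ≤ a → a ≤ 2 * k + 1 → k + 1 ≤ 2 ^ j * a →
    ∃ i ≤ j, k + 1 ≤ 2 ^ i * a ∧ 2 ^ i * a ≤ 2 * k + 1 := by
  intro j
  induction j with
  | zero => intro a _ h2 h3; exact ⟨0, le_rfl, h3, by simpa using h2⟩
  | succ j ih =>
    intro a h1 h2 h3
    by_cases h : k + 1 ≤ 2 ^ j * a
    · obtain ⟨i, hi, h⟩ := ih a h1 h2 h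
      exact ⟨i, by omega, h⟩
    · refine ⟨j + 1, le_rfl, h3, ?_⟩
      rw [pow_succ, mul_right_comm]; omega

lemma hit {p k : ℕ} [hp : Fact p.Prime] (hk : p = 3 * k + 2) {d : ZMod p} (hd : d ≠ 0) :
    ∃ i ≤ Nat.clog 2 (k + 1), (2 : ZMod p) ^ i ∈ Mid p d := by
  have hc : k + 1 ≤ 2 ^ Nat.clog 2 (k + 1) := Nat.le_pow_clog (by norm_num) _
  have key : ∀ x : ZMod p, x ≠ 0 → x.val ≤ 2 * k + 1 → ∃ i ≤ Nat.clog 2 (k + 1),
      k + 1 ≤ (x * 2 ^ i).val ∧ (x * 2 ^ i).val ≤ 2 * k + 1 := by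
    intro x hx hx2
    have h1 : 1 ≤ x.val := Nat.pos_of_ne_zero fun h => hx ((ZMod.val_eq_zero x).1 h)
    obtain ⟨i, hi, h⟩ := dbl k _ x.val h1 hx2 (hc.trans (Nat.le_mul_of_pos_right _ h1))
    refine ⟨i, hi, ?_⟩
    have e : x * 2 ^ i = ((2 ^ i * x.val : ℕ) : ZMod p) := by
      push_cast; rw [ZMod.natCast_zmod_val]; ring
    rw [e, ZMod.val_natCast, Nat.mod_eq_of_lt (by omega)]
    exact h
  have hd' : d⁻¹ ≠ 0 := inv_ne_zero hd
  by_cases h : (d⁻¹).val ≤ 2 * k + 1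
  · obtain ⟨i, hi, h⟩ := key _ hd' h
    exact ⟨i, hi, (mem_mid hk hd _).2 h⟩
  · have hs := val_add' d⁻¹ (-d⁻¹)
    rw [add_neg_cancel, ZMod.val_zero] at hs
    obtain ⟨i, hi, h⟩ := key (-d⁻¹) (neg_ne_zero.2 hd') (by omega)
    refine ⟨i, hi, (mem_mid hk hd _).2 ?_⟩
    have hs2 := val_add' (d⁻¹ * 2 ^ i) (-d⁻¹ * 2 ^ i)
    rw [show d⁻¹ * 2 ^ i + -d⁻¹ * 2 ^ i = 0 by ring, ZMod.val_zero] at hs2
    omega

section Vosper
open Pointwise

lemma cd {p : ℕ} [hp : Fact p.Prime] {A B : Finset (ZMod p)} (hA : 1 ≤ A.card) (hB : 1 ≤ B.card)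
    (h : A.card + B.card ≤ p + 1) : A.card + B.card ≤ (A + B).card + 1 := by
  have := ZMod.cauchy_davenport hp.out (card_pos.1 hA) (card_pos.1 hB)
  omega

lemma pair_add {p : ℕ} [Fact p.Prime] (s t : ZMod p) (X : Finset (ZMod p)) :
    ({s, t} : Finset (ZMod p)) + X = (s +ᵥ X) ∪ (t +ᵥ X) := by
  rw [insert_eq, union_add, singleton_add, singleton_add]

lemma vosp {p k : ℕ} [hp : Fact p.Prime] (hk : p = 3 * k + 2) : ∀ n : ℕ,
    ∀ B : Finset (ZMod p), B.card = n → 2 ≤ n → n ≤ k + 1 →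
    (∃ A : Finset (ZMod p), 2 ≤ A.card ∧ A.card ≤ k + 1 ∧ (A + B).card + 1 ≤ A.card + B.card) →
    ∃ s t : ZMod p, s ≠ t ∧ ((s +ᵥ B) ∪ (t +ᵥ B)).card ≤ B.card + 1 := by
  intro n
  induction n using Nat.strong_induction_on with
  | _ n ih =>
  intro B hB h2 hn hne
  obtain ⟨X, ⟨hX2, hXk, hXB⟩, hmin⟩ := WellFounded.has_min (measure Finset.card).wf
    {A : Finset (ZMod p) | 2 ≤ A.card ∧ A.card ≤ k + 1 ∧ (A + B).card + 1 ≤ A.card + B.card} hne
  rcases hX2.eq_or_lt with h | h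
  · obtain ⟨s, t, hst, rfl⟩ := card_eq_two.1 h.symm
    refine ⟨s, t, hst, ?_⟩
    rw [← pair_add]; omega
  exfalso
  have hU : ∀ s : ZMod p, (s +ᵥ X).card = X.card := fun s => card_vadd_finset _ _
  have sid : ∀ s t : ZMod p, s ≠ t → ((s +ᵥ X) ∩ (t +ᵥ X)).card ≤ 1 := by
    intro s t hst
    by_contra hc
    have c1 := card_union_add_card_inter (s +ᵥ X) (t +ᵥ X)
    rw [hU, hU] at c1
    have c2 := cd (A := {s, t}) (B := X) (by rw [card_pair hst]; omega) (by omega)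
      (by rw [card_pair hst]; omega)
    rw [pair_add, card_pair hst] at c2
    have c3 := cd (A := (s +ᵥ X) ∪ (t +ᵥ X)) (B := B) (by omega) (by omega) (by omega)
    have c4 := card_union_add_card_inter ((s +ᵥ X) + B) ((t +ᵥ X) + B)
    have c5 : ∀ s : ZMod p, ((s +ᵥ X) + B).card = (X + B).card := fun s => by
      rw [vadd_add_assoc, card_vadd_finset]
    rw [c5, c5, ← union_add] at c4
    have c6 : (((s +ᵥ X) ∩ (t +ᵥ X)) + B).card ≤ (((s +ᵥ X) + B) ∩ ((t +ᵥ X) + B)).card :=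
      card_le_card inter_add_subset
    refine hmin ((s +ᵥ X) ∩ (t +ᵥ X)) ⟨by omega, by omega, by omega⟩ ?_
    show ((s +ᵥ X) ∩ (t +ᵥ X)).card < X.card
    omega
  by_cases hlt : X.card < n
  · obtain ⟨s, t, hst, h'⟩ := ih _ hlt X rfl hX2 hXk ⟨B, by omega, by omega, by
      rw [add_comm B X]; omega⟩
    have c1 := card_union_add_card_inter (s +ᵥ X) (t +ᵥ X)
    rw [hU, hU] at c1
    have := sid s t hst
    omega
  have hsub : ∀ s ∈ B, s +ᵥ X ⊆ X + B := by
    intro s hs x hx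
    obtain ⟨y, hy, rfl⟩ := mem_vadd_finset.1 hx
    rw [vadd_eq_add, add_comm s y]; exact add_mem_add hy hs
  have h3 : 2 < B.card := by
    obtain ⟨s, hs, t, ht, hst⟩ := one_lt_card.1 (show 1 < B.card by omega)
    have c1 := card_union_add_card_inter (s +ᵥ X) (t +ᵥ X)
    rw [hU, hU] at c1
    have := sid s t hst
    have := card_le_card (union_subset (hsub s hs) (hsub t ht))
    omega
  obtain ⟨s, t, u, hs, ht, hu, hst, hsu, htu⟩ := two_lt_card_iff.1 h3
  have c1 := card_union_add_card_inter (s +ᵥ X) (t +ᵥ X)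
  have c2 := card_union_add_card_inter ((s +ᵥ X) ∪ (t +ᵥ X)) (u +ᵥ X)
  rw [hU, hU] at c1
  rw [hU, union_inter_distrib_right] at c2
  have c3 := card_union_le ((s +ᵥ X) ∩ (u +ᵥ X)) ((t +ᵥ X) ∩ (u +ᵥ X))
  have := sid s t hst
  have := sid s u hsu
  have := sid t u htu
  have := card_le_card (union_subset (union_subset (hsub s hs) (hsub t ht)) (hsub u hu))
  omega

lemma classif {p k : ℕ} [hp : Fact p.Prime] (hk : p = 3 * k + 2) (hk1 : 1 ≤ k)
    (S : Finset (ZMod p)) (hS : SumFree S) (hc : S.card = k + 1) : ∃ d ≠ 0, S = Mid p d := by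
  classical
  have hSS : (S + S).card ≤ 2 * k + 1 := by
    have : S + S ⊆ Sᶜ := by
      intro z hz
      obtain ⟨x, hx, y, hy, rfl⟩ := mem_add.1 hz
      exact mem_compl.2 (hS x hx y hy)
    have h := card_le_card this
    rw [card_compl, ZMod.card] at h; omega
  obtain ⟨s, t, hst, h⟩ := vosp hk _ S hc (by omega) le_rfl ⟨S, by omega, by omega, by omega⟩
  have hd : t - s ≠ 0 := sub_ne_zero.2 hst.symm
  set d := t - s with hdd
  refine ⟨d, hd, ?_⟩
  -- at most one `x ∈ S` with `x + d ∉ S`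
  have hone : ∀ x ∈ S, ∀ y ∈ S, x + d ∉ S → y + d ∉ S → x = y := by
    intro x hx y hy hx' hy'
    by_contra hxy
    have hn : ∀ x, x + d ∉ S → t + x ∉ s +ᵥ S := by
      intro x hx' hm
      obtain ⟨z, hz, e⟩ := mem_vadd_finset.1 hm
      rw [vadd_eq_add] at e
      apply hx'
      rw [show x + d = z by rw [hdd]; linear_combination -e]; exact hz
    have hsub : insert (t + x) (insert (t + y) (s +ᵥ S)) ⊆ (s +ᵥ S) ∪ (t +ᵥ S) :=
      insert_subset (mem_union_right _ (vadd_mem_vadd_finset hx))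
        (insert_subset (mem_union_right _ (vadd_mem_vadd_finset hy)) subset_union_left)
    have := card_le_card hsub
    rw [card_insert_of_notMem, card_insert_of_notMem (hn y hy'), card_vadd_finset] at this
    · omega
    · rw [mem_insert, not_or]
      exact ⟨fun e => hxy (add_left_cancel e), hn x hx'⟩
  let V : Finset ℕ := (range p).filter fun n => d * (n : ZMod p) ∈ S
  have hV : ∀ n, n ∈ V ↔ n < p ∧ d * (n : ZMod p) ∈ S := fun n => by simp [V]
  have hinj : ∀ a b : ℕ, a < p → b < p → d * (a : ZMod p) = d * b → a = b := by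
    intro a b ha hb e
    have := congrArg ZMod.val (mul_left_cancel₀ hd e)
    rwa [ZMod.val_natCast, ZMod.val_natCast, Nat.mod_eq_of_lt ha, Nat.mod_eq_of_lt hb] at this
  have hval : ∀ x ∈ S, (d⁻¹ * x).val ∈ V := by
    intro x hx
    rw [hV, ZMod.natCast_zmod_val, ← mul_assoc, mul_inv_cancel₀ hd, one_mul]
    exact ⟨ZMod.val_lt _, hx⟩
  have hVc : V.card = k + 1 := by
    rw [← hc]
    refine card_bij (fun n _ => d * (n : ZMod p)) (fun n hn => ((hV n).1 hn).2)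
      (fun a ha b hb e => hinj a b ((hV a).1 ha).1 ((hV b).1 hb).1 e) ?_
    intro x hx
    exact ⟨_, hval x hx, by rw [ZMod.natCast_zmod_val, ← mul_assoc, mul_inv_cancel₀ hd, one_mul]⟩
  have h0 : (0 : ZMod p) ∉ S := fun h => hS 0 h 0 h (by simpa using h)
  have hne : V.Nonempty := card_pos.1 (by omega)
  obtain ⟨M, hM, hMmax⟩ := exists_max_image V id hne
  obtain ⟨a, ha, hamin⟩ := exists_min_image V id hne
  simp only [id] at hMmax hamin
  have hM' := (hV M).1 hM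
  have ha' := (hV a).1 ha
  have hMd : d * (M : ZMod p) + d ∉ S := by
    intro hm
    rcases (show M + 1 < p ∨ M + 1 = p by omega) with h1 | h1
    · have := hMmax (M + 1) ((hV _).2 ⟨h1, by push_cast; rwa [mul_add, mul_one]⟩)
      omega
    · apply h0
      have e : ((M + 1 : ℕ) : ZMod p) = 0 := by rw [h1]; exact ZMod.natCast_self p
      push_cast at e
      rwa [← mul_add_one, e, mul_zero] at hm
  have hstep : ∀ i, a + i ≤ M → a + i ∈ V := by
    intro i
    induction i with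
    | zero => intro _; exact ha
    | succ i ih =>
      intro hi
      have h1 := (hV _).1 (ih (by omega))
      refine (hV _).2 ⟨by omega, ?_⟩
      by_contra hn
      have := hone _ h1.2 _ hM'.2 (by
        rw [← add_assoc] at hn; push_cast at hn ⊢; rwa [mul_add _ _ (1 : ZMod p), mul_one] at hn) hMd
      have := hinj _ _ h1.1 hM'.1 this
      omega
  have hVI : V = Icc a M := by
    ext n
    rw [mem_Icc]
    refine ⟨fun hn => ⟨hamin n hn, hMmax n hn⟩, fun hn => ?_⟩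
    have := hstep (n - a) (by omega)
    rwa [show a + (n - a) = n by omega] at this
  have hMa : M = a + k := by
    rw [hVI, Nat.card_Icc] at hVc; omega
  have l1 : k + 1 ≤ a := by
    by_contra hh
    have := (hV _).1 (hstep a (by omega))
    apply hS _ ha'.2 _ ha'.2
    have h2 := this.2
    push_cast at h2
    rwa [mul_add] at h2
  have l2 : a ≤ k + 1 := by
    by_contra hh
    have hm : M + M - p ∈ V := by rw [hVI, mem_Icc]; omega
    have h2 := ((hV _).1 hm).2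
    rw [Nat.cast_sub (by omega), ZMod.natCast_self, sub_zero] at h2
    push_cast at h2
    rw [mul_add] at h2
    exact hS _ hM'.2 _ hM'.2 h2
  apply eq_of_subset_of_card_le
  · intro x hx
    have := hval x hx
    rw [hVI, mem_Icc] at this
    rw [mem_mid hk hd]; omega
  · rw [card_mid hk hd]; omega

end Vosper

theorem result (p : ℕ) (hp : p.Prime) (hodd : Odd p) (h3 : p % 3 = 2) :
    p - Nat.clog 2 ((p + 1) / 3) ≤ T p ∧ T p ≤ p - Nat.log 3 p := by
  classical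
  have := Fact.mk hp
  obtain ⟨k, hk⟩ : ∃ k, p = 3 * k + 2 := ⟨p / 3, by omega⟩
  have hlt : Nat.log 3 p < p := Nat.log_lt_self _ (by omega)
  have hmem : p - Nat.log 3 p ∈ {m | 1 ≤ m ∧ m ≤ p ∧ ∀ A : Finset (ZMod p), A.card = m →
      ∃ S ⊆ A, SumFree S ∧ S.card = (p + 1) / 3} :=
    ⟨by omega, by omega, fun A hA => upper hk A hA⟩
  refine ⟨?_, Nat.sInf_le hmem⟩
  have hk1 : 1 ≤ k := by obtain ⟨r, hr⟩ := hodd; omega
  obtain ⟨-, -, hT⟩ := Nat.sInf_mem ⟨_, hmem⟩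
  change ∀ A : Finset (ZMod p), A.card = T p → _ at hT
  have e1 : (p + 1) / 3 = k + 1 := by omega
  by_contra hlt2
  let B : Finset (ZMod p) := (range (Nat.clog 2 (k + 1) + 1)).image fun i => (2 : ZMod p) ^ i
  have hB : B.card ≤ Nat.clog 2 (k + 1) + 1 := card_image_le.trans (by rw [card_range])
  have hc : T p ≤ (Bᶜ).card := by
    rw [card_compl, ZMod.card]; rw [e1] at hlt2; omega
  obtain ⟨A, hAB, hA⟩ := exists_subset_card_eq hc
  obtain ⟨S, hSA, hS, hSc⟩ := hT A hA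
  obtain ⟨d, hd, rfl⟩ := classif hk hk1 S hS (hSc.trans e1)
  obtain ⟨i, hi, h⟩ := hit hk hd
  exact mem_compl.1 (hAB (hSA h)) (mem_image.2 ⟨i, mem_range.2 (by omega), rfl⟩)

end Pool.Agent.Results.MP_eec16c_co.Log
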